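import Pool.Agent.H61.AR.Targets

/-!
# The normal on the boundary circle
-/

set_option autoImplicit false

open Set Function MeasureTheory Filter Topology
open scoped Manifold ContDiff Matrix
open Pool.Agent.H61.AR Pool.Agent.H60.CM

namespace Pool.Agent.H51.AR

theorem pf_NRM (h1 : T_BNZ) : T_NRM := by
  intro D γ hγ
  have hr : D.r ≠ 0 := D.cmc.r_pos.ne'
  have hN : Continuous D.N := D.cmc.N_smooth.continuous
  have hNγ : Continuous fun θ => D.N (γ θ) := hN.comp hγ.cont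
  have hc : ∀ i : Fin 3, Continuous fun θ => D.N (γ θ) i := fun i =>
    (continuous_apply i).comp hNγ
  have key : ∀ θ, ∃ m : ℝ, D.N (γ θ) 0 = m * Real.cos θ ∧ D.N (γ θ) 1 = m * Real.sin θ ∧
      m ^ 2 + D.N (γ θ) 2 ^ 2 = 1 := by
    intro θ
    obtain ⟨-, e0, e1, e2⟩ := h1 D (γ θ) (hγ.mem θ)
    have hx := hγ.eq θ
    have hx0 : D.x (γ θ) 0 = D.r * Real.cos θ := by
      rw [hx]
      rfl
    have hx1 : D.x (γ θ) 1 = D.r * Real.sin θ := by
      rw [hx]
      rfl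
    rw [hx0] at e0
    rw [hx1] at e1
    refine ⟨(D.N (γ θ) ⬝ᵥ D.x (γ θ)) / D.r, ?_, ?_, ?_⟩
    · apply mul_right_cancel₀ (pow_ne_zero 2 hr)
      rw [e0]
      field_simp
    · apply mul_right_cancel₀ (pow_ne_zero 2 hr)
      rw [e1]
      field_simp
    · rw [div_pow]
      exact e2
  have hnr : ∀ θ, D.N (γ θ) 0 = nr D γ θ * Real.cos θ ∧ D.N (γ θ) 1 = nr D γ θ * Real.sin θ ∧
      nr D γ θ ^ 2 + D.N (γ θ) 2 ^ 2 = 1 := by
    intro θ
    obtain ⟨m, a0, a1, a2⟩ := key θ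
    have hm : nr D γ θ = m := by
      unfold nr
      rw [a0, a1]
      linear_combination m * Real.sin_sq_add_cos_sq θ
    rw [hm]
    exact ⟨a0, a1, a2⟩
  refine ⟨?_, hc 2, fun θ => (hnr θ).2.2, fun θ => ⟨(hnr θ).1, (hnr θ).2.1⟩⟩
  exact ((hc 0).mul Real.continuous_cos).add ((hc 1).mul Real.continuous_sin)

end Pool.Agent.H51.AR
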